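import Pool.Agent.Lib.MP_1a39b9_al.Mg.G004
import Pool.Agent.Lib.MP_1a39b9_al.Mg.G005

/-!
# PR R: number of generators; separating sets of relators

`card_eq_rank`: a presentation with all exponent sums of the relators divisible by `p` has the least number of generators.
`proP_of_sep`: relators on which no nonzero invariant homomorphism vanishes present the group as a pro-`p` group.
-/

set_option autoImplicit false

namespace Pool.Agent.RG.PR

open Subgroup
open scoped commutatorElement

theorem card_eq_rank {p : ℕ} [Fact p.Prime] {κ G : Type} [Fintype κ] [DecidableEq κ] [Group G] [Finite G]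
    (hG : IsPGroup p G) {ψ : FreeGroup κ →* G} (hψ : Function.Surjective ψ) (hfr : FrK p ψ.ker) :
    Fintype.card κ = Group.rank G := by
  classical
  have hfin : FiniteDimensional (ZMod p) (HM p G) := inferInstance
  refine le_antisymm ?_ ?_
  · have hwd : ∀ (v : κ → ZMod p) (w w' : FreeGroup κ), ψ w = ψ w' →
        ∑ i, (ev w i : ZMod p) * v i = ∑ i, (ev w' i : ZMod p) * v i := by
      intro v w w' h
      have hr : w'⁻¹ * w ∈ ψ.ker := by
        rw [MonoidHom.mem_ker, map_mul, map_inv, h, inv_mul_cancel]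
      refine Finset.sum_congr rfl fun i _ => ?_
      have h1 : ev w i = ev w' i + ev (w'⁻¹ * w) i := by
        rw [ev_mul, ev_inv]
        ring
      rw [h1, Int.cast_add, (ZMod.intCast_zmod_eq_zero_iff_dvd _ _).2 (hfr _ hr i), add_zero]
    let σ : G → FreeGroup κ := Function.surjInv hψ
    have hσ : ∀ g, ψ (σ g) = g := Function.surjInv_eq hψ
    let Φ : (κ → ZMod p) →ₗ[ZMod p] HM p G :=
      { toFun := fun v => ⟨fun g => ∑ i, (ev (σ g) i : ZMod p) * v i, by
          intro a b
          show ∑ i, (ev (σ (a * b)) i : ZMod p) * v i =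
            ∑ i, (ev (σ a) i : ZMod p) * v i + ∑ i, (ev (σ b) i : ZMod p) * v i
          rw [hwd v (σ (a * b)) (σ a * σ b) (by rw [map_mul, hσ, hσ, hσ]), ← Finset.sum_add_distrib]
          refine Finset.sum_congr rfl fun i _ => ?_
          rw [ev_mul, Int.cast_add, add_mul]⟩
        map_add' := by
          intro v w
          apply Subtype.ext
          funext g
          show ∑ i, (ev (σ g) i : ZMod p) * (v i + w i) =
            ∑ i, (ev (σ g) i : ZMod p) * v i + ∑ i, (ev (σ g) i : ZMod p) * w i
          rw [← Finset.sum_add_distrib]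
          exact Finset.sum_congr rfl fun i _ => mul_add _ _ _
        map_smul' := by
          intro c v
          apply Subtype.ext
          funext g
          show ∑ i, (ev (σ g) i : ZMod p) * (c * v i) = c * ∑ i, (ev (σ g) i : ZMod p) * v i
          rw [Finset.mul_sum]
          exact Finset.sum_congr rfl fun i _ => by ring }
    have hinj : Function.Injective Φ := by
      rw [injective_iff_map_eq_zero]
      intro v hv
      funext i
      have h1 : ∑ j, (ev (σ (ψ (FreeGroup.of i))) j : ZMod p) * v j = 0 :=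
        congrFun (congrArg Subtype.val hv) (ψ (FreeGroup.of i))
      rw [hwd v _ (FreeGroup.of i) (hσ _), Finset.sum_eq_single i] at h1
      · rw [ev_of, if_pos rfl, Int.cast_one, one_mul] at h1
        exact h1
      · intro j _ hj
        rw [ev_of, if_neg (Ne.symm hj), Int.cast_zero, zero_mul]
      · intro h; exact absurd (Finset.mem_univ i) h
    have h1 := LinearMap.finrank_le_finrank_of_injective hinj
    rw [Module.finrank_fintype_fun_eq_card] at h1
    rw [← finrank_HM hG]
    have h2 : Module.finrank (ZMod p) (HM p G →ₗ[ZMod p] ZMod p) = Module.finrank (ZMod p) (HM p G) :=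
      Subspace.dual_finrank_eq
    rw [h2]
    exact h1
  · have h3 := Group.rank_le (G := G) (S := Finset.univ.image fun i => ψ (FreeGroup.of i)) (by
      rw [Finset.coe_image, Finset.coe_univ, Set.image_univ, ← FreeGroup.range_lift_eq_closure]
      have h4 : FreeGroup.lift (fun i => ψ (FreeGroup.of i)) = ψ :=
        FreeGroup.ext_hom _ _ fun i => by rw [FreeGroup.lift_apply_of]
      rw [h4]
      exact MonoidHom.range_eq_top.2 hψ)
    exact h3.trans (Finset.card_image_le.trans (by rw [Finset.card_univ]))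

theorem proP_of_sep {p : ℕ} [Fact p.Prime] {ι G : Type} [Group G] [Finite G] (hG : IsPGroup p G)
    {φ : FreeGroup ι →* G} (hφ : Function.Surjective φ) {S : Finset (FreeGroup ι)}
    (hS : ∀ s ∈ S, s ∈ φ.ker)
    (hsep : ∀ l ∈ IL p φ.ker, (∀ s ∈ S, l s = 0) → l = 0) : ProP p φ S := by
  refine ⟨hφ, normalClosure_le_normal hS, fun K hK hidx hle => ?_⟩
  obtain ⟨n, hn⟩ := hidx
  set R := φ.ker with hR
  set P := R ⊓ K with hP
  have hPn : P.Normal := inferInstance
  have hRidx : ∃ m : ℕ, R.index = p ^ m := by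
    obtain ⟨m, hm⟩ := IsPGroup.iff_card.1 hG
    exact ⟨m, by rw [hR, Subgroup.index_ker, MonoidHom.range_eq_top.2 hφ, Subgroup.card_top, hm]⟩
  obtain ⟨m, hm⟩ := hRidx
  have hPidx : ∃ a : ℕ, P.index = p ^ a := by
    have h1 : P.relIndex K ∣ p ^ m := by
      rw [hP, Subgroup.inf_relIndex_right, ← hm]
      exact Subgroup.relIndex_dvd_index_of_normal R K
    obtain ⟨b, _, hb⟩ := (Nat.dvd_prime_pow (Fact.out : p.Prime)).1 h1
    refine ⟨b + n, ?_⟩
    rw [← Subgroup.relIndex_mul_index (inf_le_right : P ≤ K), hb, hn, pow_add]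
  obtain ⟨a, ha⟩ := hPidx
  have hPR : P ≤ R := inf_le_left
  have hSP : ∀ s ∈ S, s ∈ P := fun s hs => ⟨hS s hs, hle (subset_normalClosure hs)⟩
  set E : Subgroup (FreeGroup ι) := ⁅R, (⊤ : Subgroup (FreeGroup ι))⁆ ⊔ P with hE
  have hEn : E.Normal := inferInstance
  have hER : E ≤ R := sup_le (Subgroup.commutator_le_left _ _) hPR
  have hRE : R ≤ E := by
    -- the quotient by `E`
    let q : FreeGroup ι →* FreeGroup ι ⧸ E := QuotientGroup.mk' E
    have hqk : ∀ r, q r = 1 ↔ r ∈ E := fun r => QuotientGroup.eq_one_iff r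
    have hEidx : E.index ≠ 0 := by
      intro h0
      have h1 := Subgroup.index_dvd_of_le (le_sup_right : P ≤ E)
      rw [h0, ha, zero_dvd_iff] at h1
      exact pow_ne_zero _ (Fact.out : p.Prime).ne_zero h1
    have hfin : Finite (FreeGroup ι ⧸ E) := by
      have : E.FiniteIndex := ⟨hEidx⟩
      exact Subgroup.finite_quotient_of_finiteIndex
    have hcen : R.map q ≤ center (FreeGroup ι ⧸ E) := by
      rintro _ ⟨r, hr, rfl⟩
      rw [mem_center_iff]
      intro y
      obtain ⟨w, rfl⟩ := QuotientGroup.mk'_surjective E y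
      have h1 : ⁅r, w⁆ ∈ E := (le_sup_left : _ ≤ E) (commutator_mem_commutator hr (mem_top w))
      have h2 := (hqk _).2 h1
      rw [map_commutatorElement, commutatorElement_eq_one_iff_mul_comm] at h2
      exact h2.symm
    let Pp : Subgroup (FreeGroup ι ⧸ E) :=
      { carrier := {x | ∃ z ∈ R.map q, z ^ p = x}
        mul_mem' := by
          rintro _ _ ⟨z, hz, rfl⟩ ⟨z', hz', rfl⟩
          refine ⟨z * z', mul_mem hz hz', ?_⟩
          have h3 : Commute z z' := (mem_center_iff.1 (hcen hz) z').symm
          exact h3.mul_pow p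
        one_mem' := ⟨1, one_mem _, one_pow p⟩
        inv_mem' := by
          rintro _ ⟨z, hz, rfl⟩
          exact ⟨z⁻¹, inv_mem hz, inv_pow z p⟩ }
    have hPpc : Pp ≤ center (FreeGroup ι ⧸ E) := by
      rintro _ ⟨z, hz, rfl⟩
      exact pow_mem (hcen hz) p
    have hPpn : Pp.Normal := ⟨fun x hx y => by
      rw [mem_center_iff.1 (hPpc hx) y, mul_inv_cancel_right]
      exact hx⟩
    let E' : Subgroup (FreeGroup ι) := Pp.comap q
    have hE'n : E'.Normal := inferInstance
    have hEE' : E ≤ E' := by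
      intro x hx
      show q x ∈ Pp
      rw [(hqk x).2 hx]
      exact one_mem _
    have hE'R : E' ≤ R := by
      rintro x ⟨_, ⟨r, hr, rfl⟩, h1⟩
      have h2 : q (x⁻¹ * r ^ p) = 1 := by
        rw [map_mul, map_inv, map_pow, h1, inv_mul_cancel]
      have h3 := hER ((hqk _).1 h2)
      have h4 := mul_mem (pow_mem hr p) (inv_mem h3)
      have h5 : r ^ p * (x⁻¹ * r ^ p)⁻¹ = x := by group
      rwa [h5] at h4
    have hRE' : R ≤ E' := by
      by_contra hcon
      have hlt : E' < R := lt_of_le_not_ge hE'R hcon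
      obtain ⟨l, hl, h1, r, hr, hne⟩ := exists_inv_hom (p := p) R E' hlt
        (le_sup_left.trans hEE') (fun g hg => ⟨q g, ⟨g, hg, rfl⟩, (map_pow q g p).symm⟩)
      have h2 := hsep l hl fun s hs => h1 s (hEE' ((le_sup_right : P ≤ E) (hSP s hs)))
      exact hne (by rw [h2]; rfl)
    -- the `p`-th power map is onto, hence injective
    have hsurj : Function.Surjective fun z : R.map q => (⟨z.1 ^ p, pow_mem z.2 p⟩ : R.map q) := by
      rintro ⟨_, ⟨r, hr, rfl⟩⟩
      obtain ⟨z, hz, h1⟩ := hRE' hr
      exact ⟨⟨z, hz⟩, Subtype.ext h1⟩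
    have hinj := Finite.injective_iff_surjective.2 hsurj
    have hpg : ∀ z : FreeGroup ι ⧸ E, z ^ p ^ a = 1 := by
      intro z
      obtain ⟨w, rfl⟩ := QuotientGroup.mk'_surjective E z
      have h1 : w ^ p ^ a ∈ E := (le_sup_right : P ≤ E) (by rw [← ha]; exact P.pow_index_mem w)
      exact (hqk _).2 h1 ▸ (map_pow q w (p ^ a)).symm
    have hone : ∀ (b : ℕ) (z : FreeGroup ι ⧸ E), z ∈ R.map q → z ^ p ^ b = 1 → z = 1 := by
      intro b
      induction b with
      | zero => intro z _ h; rwa [pow_zero, pow_one] at h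
      | succ b ih =>
        intro z hz h
        refine ih z hz ?_
        have h1 : (fun z : R.map q => (⟨z.1 ^ p, pow_mem z.2 p⟩ : R.map q)) ⟨z ^ p ^ b, pow_mem hz _⟩ =
            (fun z : R.map q => (⟨z.1 ^ p, pow_mem z.2 p⟩ : R.map q)) ⟨1, one_mem _⟩ := by
          apply Subtype.ext
          show (z ^ p ^ b) ^ p = 1 ^ p
          rw [← pow_mul, ← pow_succ, h, one_pow]
        exact congrArg Subtype.val (hinj h1)
    intro r hr
    exact (hqk r).1 (hone a (q r) ⟨r, hr, rfl⟩ (hpg _))
  have h := eq_of_nilpotent R P hPR ha hRE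
  exact h.trans inf_le_right

end Pool.Agent.RG.PR
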