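import Pool.Agent.Lib.MP_1a39b9_al.Mg.G008
import Pool.Agent.Lib.MP_1a39b9_al.PR.R
import Pool.Agent.Lib.MP_1a39b9_al.RG.M3

/-!
# PR F: the relation numbers of a direct product
-/

set_option autoImplicit false

namespace Pool.Agent.RG.PR

open Subgroup

/-- The number of the relators in which a word of the factor `c` may be absorbed. -/
theorem card_al {k : ℕ} {d ρ : Fin k → ℕ} {g : ℕ} (δ : Fin k → Fin k → ℕ) (c : Fin k)
    [DecidablePred (Al (d := d) (ρ := ρ) (g := g) δ c)] :
    Fintype.card {τ : Slot d ρ g // Al δ c τ} = ∑ j ∈ Finset.univ.erase c, ρ j +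
      (∑ q ∈ Finset.univ.filter (fun q : Fin k × Fin k => q.1 < q.2 ∧ δ q.1 q.2 < δ q.1 c ∧
        δ q.1 q.2 < δ q.2 c), d q.1 * d q.2 + g) := by
  classical
  rw [Fintype.card_subtype, Finset.card_filter, Fintype.sum_sum_type, Fintype.sum_sum_type]
  congr 1
  · rw [Fintype.sum_sigma, ← Finset.sum_filter_add_sum_filter_not Finset.univ (fun j => j ≠ c)]
    have h1 : ∑ j ∈ Finset.univ.filter (fun j : Fin k => ¬ j ≠ c), ∑ i : Fin (ρ j),
        (if Al (d := d) (g := g) δ c (Sum.inl ⟨j, i⟩) then 1 else 0) = 0 := by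
      refine Finset.sum_eq_zero fun j hj => Finset.sum_eq_zero fun i _ => if_neg ?_
      exact (Finset.mem_filter.1 hj).2
    rw [h1, add_zero]
    refine Finset.sum_congr ?_ fun j hj => ?_
    · ext j
      simp
    · have h2 : j ≠ c := Finset.ne_of_mem_erase hj
      have h3 : ∀ i : Fin (ρ j), Al (d := d) (g := g) δ c (Sum.inl ⟨j, i⟩) := fun _ => h2
      simp only [h3, if_true, Finset.sum_const, Finset.card_univ, Fintype.card_fin, smul_eq_mul, mul_one]
  · congr 1
    · have h1 : ∀ q : CP d, (if Al (ρ := ρ) (g := g) δ c (Sum.inr (Sum.inl q)) then 1 else 0) =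
          (fun z : KK d × KK d => if δ z.1.1 z.2.1 < δ z.1.1 c ∧ δ z.1.1 z.2.1 < δ z.2.1 c then 1 else 0) q.1 := by
        intro q
        refine if_congr Iff.rfl rfl rfl
      simp only [h1]
      rw [← Finset.sum_subtype (Finset.univ.filter fun z : KK d × KK d => z.1.1 < z.2.1)
        (fun z => by simp) (fun z : KK d × KK d =>
          if δ z.1.1 z.2.1 < δ z.1.1 c ∧ δ z.1.1 z.2.1 < δ z.2.1 c then 1 else 0),
        Finset.sum_filter, Finset.sum_filter, Fintype.sum_prod_type, Fintype.sum_prod_type, Fintype.sum_sigma]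
      refine Finset.sum_congr rfl fun i _ => ?_
      have h2 : ∀ a : Fin (d i), (∑ y : KK d, if i < y.1 then
          (if δ i y.1 < δ i c ∧ δ i y.1 < δ y.1 c then 1 else 0) else 0) =
          ∑ j, d j * (if i < j ∧ δ i j < δ i c ∧ δ i j < δ j c then 1 else 0) := by
        intro a
        rw [Fintype.sum_sigma]
        refine Finset.sum_congr rfl fun j _ => ?_
        show (∑ _y : Fin (d j), if i < j then
          (if δ i j < δ i c ∧ δ i j < δ j c then 1 else 0) else 0) = _
        rw [Finset.sum_const, Finset.card_univ, Fintype.card_fin, smul_eq_mul]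
        congr 1
        by_cases h3 : i < j <;> simp [h3]
      refine (Finset.sum_congr rfl fun a _ => h2 a).trans ?_
      rw [Finset.sum_const, Finset.card_univ, Fintype.card_fin, smul_eq_mul, Finset.mul_sum]
      refine Finset.sum_congr rfl fun j _ => ?_
      by_cases h3 : i < j ∧ δ i j < δ i c ∧ δ i j < δ j c
      · rw [if_pos h3, if_pos h3, mul_one]
      · rw [if_neg h3, if_neg h3, mul_zero, mul_zero]
    · have h3 : ∀ i : Fin g, Al (d := d) (ρ := ρ) (g := g) δ c (Sum.inr (Sum.inr i)) := fun _ => trivial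
      simp only [h3, if_true, Finset.sum_const, Finset.card_univ, Fintype.card_fin, smul_eq_mul, mul_one]

theorem exists_surj (G : Type) [Group G] [Finite G] :
    ∃ ψ : FreeGroup (Fin (Group.rank G)) →* G, Function.Surjective ψ := by
  classical
  obtain ⟨S, hS, hcl⟩ := Group.rank_spec G
  let E : Fin (Group.rank G) ≃ S := (Fintype.equivFinOfCardEq (by rw [Fintype.card_coe, hS])).symm
  refine ⟨FreeGroup.lift fun i => (E i : G), ?_⟩
  rw [← MonoidHom.range_eq_top, FreeGroup.range_lift_eq_closure, ← hcl]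
  congr 1
  ext x
  constructor
  · rintro ⟨i, rfl⟩
    exact (E i).2
  · intro hx
    exact ⟨E.symm ⟨x, hx⟩, by simp⟩

theorem exists_relators {n : ℕ} {G : Type} [Group G] [Finite G] (ψ : FreeGroup (Fin n) →* G)
    (hψ : Function.Surjective ψ) : ∃ T : Finset (FreeGroup (Fin n)),
      normalClosure (T : Set (FreeGroup (Fin n))) = ψ.ker := by
  have h1 : ψ.ker.FiniteIndex := ⟨by
    rw [Subgroup.index_ker, MonoidHom.range_eq_top.2 hψ, Subgroup.card_top]
    exact Nat.card_pos.ne'⟩
  obtain ⟨T, hT⟩ := (Group.fg_iff_subgroup_fg ψ.ker).1 (Subgroup.fg_of_index_ne_zero ψ.ker)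
  refine ⟨T, ?_⟩
  rw [← normalClosure_closure_eq_normalClosure, hT]
  exact normalClosure_eq_self _

theorem frK_of_surj {p : ℕ} [Fact p.Prime] {G : Type} [Group G] [Finite G] (hG : IsPGroup p G)
    {ψ : FreeGroup (Fin (Group.rank G)) →* G} (hψ : Function.Surjective ψ) : FrK p ψ.ker := by
  have h1 : FreeGroup.lift (fun i => ψ (FreeGroup.of i)) = ψ :=
    FreeGroup.ext_hom _ _ fun i => by rw [FreeGroup.lift_apply_of]
  have h2 := frK_of_gen hG (fun i => ψ (FreeGroup.of i)) (by
    rw [← FreeGroup.range_lift_eq_closure, h1]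
    exact MonoidHom.range_eq_top.2 hψ) (Fintype.card_fin _)
  rwa [h1] at h2

theorem main (p : ℕ) [Fact p.Prime] {k : ℕ} (G : Fin k → Type) [∀ i, Group (G i)] [∀ i, Finite (G i)]
    (hG : ∀ i, IsPGroup p (G i)) (δ : Fin k → Fin k → ℕ) (hδ : ∀ i j, δ i j = δ j i)
    (hδ' : ∀ i j l, δ i l ≤ max (δ i j) (δ j l)) (g : ℕ)
    (h : ∀ c, r1 (Group.rank (G c)) (G c) ≤ g + ∑ j, r2 p (Group.rank (G j)) (G j) +
      ∑ q ∈ Finset.univ.filter (fun q : Fin k × Fin k => q.1 < q.2 ∧ δ q.1 q.2 < δ q.1 c ∧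
        δ q.1 q.2 < δ q.2 c), Group.rank (G q.1) * Group.rank (G q.2)) :
    r1 (Group.rank (∀ i, G i)) (∀ i, G i) ≤ r2 p (Group.rank (∀ i, G i)) (∀ i, G i) + g := by
  classical
  -- optimal presentations of the factors
  have hne : ∀ c, {r | ∃ (ψ : FreeGroup (Fin (Group.rank (G c))) →* G c)
      (T : Finset (FreeGroup (Fin (Group.rank (G c))))), Disc ψ T ∧ T.card = r}.Nonempty := by
    intro c
    obtain ⟨ψ, hψ⟩ := exists_surj (G c)
    obtain ⟨T, hT⟩ := exists_relators ψ hψ
    exact ⟨T.card, ψ, T, ⟨hψ, hT⟩, rfl⟩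
  choose ψ T hD hT using fun c => Nat.sInf_mem (hne c)
  have hT' : ∀ c, (T c).card = r1 (Group.rank (G c)) (G c) := hT
  choose ρ m s e hρm hnf using fun c => exists_nf (p := p) (hD c).eq
  have hfr : ∀ c, FrK p (ψ c).ker := fun c => frK_of_surj (hG c) (hD c).surj
  have hfin : ∀ c, Module.Finite (ZMod p) (IL p (ψ c).ker) := fun c => by
    have h1 := (hD c).eq
    exact IL_findim (fun i : T c => (i : FreeGroup (Fin (Group.rank (G c))))) (by
      rw [← h1]
      congr 1
      ext x
      simp)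
  have hr2 : ∀ c, r2 p (Group.rank (G c)) (G c) ≤ ρ c := by
    intro c
    have h1 : ProP p (ψ c) (Finset.univ.image (s c)) := by
      refine proP_of_sep (hG c) (hD c).surj ?_ ?_
      · intro x hx
        obtain ⟨i, _, rfl⟩ := Finset.mem_image.1 hx
        rw [← (hnf c).ncl]
        exact subset_normalClosure (Or.inl ⟨i, rfl⟩)
      · intro l hl h0
        exact (hnf c).sep hl fun i => h0 _ (Finset.mem_image_of_mem _ (Finset.mem_univ i))
    have h2 : r2 p (Group.rank (G c)) (G c) ≤ (Finset.univ.image (s c)).card :=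
      Nat.sInf_le ⟨ψ c, _, h1, rfl⟩
    exact h2.trans (Finset.card_image_le.trans (by rw [Finset.card_univ, Fintype.card_fin]))
  -- the absorbed words
  have hcard : ∀ c, m c ≤ Fintype.card {τ : Slot (fun i => Group.rank (G i)) ρ g // Al δ c τ} := by
    intro c
    rw [card_al]
    have h1 := h c
    rw [← hT', ← hρm] at h1
    have h2 : ∑ j, r2 p (Group.rank (G j)) (G j) ≤ ρ c + ∑ j ∈ Finset.univ.erase c, ρ j := by
      rw [Finset.add_sum_erase _ _ (Finset.mem_univ c)]
      exact Finset.sum_le_sum fun j _ => hr2 j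
    omega
  have hemb : ∀ c, Nonempty (Fin (m c) ↪ {τ : Slot (fun i => Group.rank (G i)) ρ g // Al δ c τ}) := by
    intro c
    refine Function.Embedding.nonempty_of_card_le ?_
    rw [Fintype.card_fin]
    exact hcard c
  let σ := fun c => Classical.choice (hemb c)
  let hh : ∀ c, Slot (fun i => Group.rank (G i)) ρ g → FreeGroup (Fin (Group.rank (G c))) := fun c τ =>
    if hx : ∃ i, (σ c i).1 = τ then e c hx.choose else 1
  have H : Host p ψ ρ m g δ s e hh := by
    refine ⟨fun i => (hD i).surj, hδ', hδ, hnf, ?_, ?_⟩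
    · intro c τ
      by_cases hx : ∃ i, (σ c i).1 = τ
      · right
        refine ⟨?_, hx.choose, dif_pos hx⟩
        have h1 := (σ c hx.choose).2
        rw [hx.choose_spec] at h1
        exact h1
      · left
        exact dif_neg hx
    · intro c i
      refine ⟨(σ c i).1, ?_⟩
      have hx : ∃ i', (σ c i').1 = (σ c i).1 := ⟨i, rfl⟩
      have h1 : hh c (σ c i).1 = e c hx.choose := dif_pos hx
      have h2 : hx.choose = i := (σ c).injective (Subtype.ext hx.choose_spec)
      rw [h1, h2]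
  have hncl := H.ncl_eq hG
  -- the presentation of the direct product
  have hPi : IsPGroup p (∀ i, G i) := by
    choose n hn using fun i => IsPGroup.iff_card.1 (hG i)
    refine IsPGroup.of_card (n := ∑ i, n i) ?_
    rw [Nat.card_pi, ← Finset.prod_pow_eq_pow_sum]
    exact Finset.prod_congr rfl fun i _ => hn i
  have hF := frK_Psi hfr
  have hrank := card_eq_rank hPi (Psi_surj H.surj) hF
  have hDisc : Disc (Psi ψ) (Finset.univ.image (rel s hh)) := by
    refine ⟨Psi_surj H.surj, ?_⟩
    rw [Finset.coe_image, Finset.coe_univ, Set.image_univ]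
    exact hncl
  obtain ⟨ψ', T', hD', hc'⟩ := disc_congr (Fintype.equivFinOfCardEq hrank) hDisc
  have h1 : r1 (Group.rank (∀ i, G i)) (∀ i, G i) ≤ T'.card := Nat.sInf_le ⟨ψ', T', hD', rfl⟩
  have hne2 : {r | ∃ (φ : FreeGroup (Fin (Group.rank (∀ i, G i))) →* (∀ i, G i))
      (S : Finset (FreeGroup (Fin (Group.rank (∀ i, G i))))), ProP p φ S ∧ S.card = r}.Nonempty :=
    ⟨T'.card, ψ', T', hD'.proP, rfl⟩
  obtain ⟨φ, S, hP, hS⟩ := Nat.sInf_mem hne2
  have hS' : S.card = r2 p (Group.rank (∀ i, G i)) (∀ i, G i) := hS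
  have hfinPsi : Module.Finite (ZMod p) (IL p (Psi ψ).ker) := IL_findim (rel s hh) hncl
  have hfinφ := hP.findim hPi
  have h2 := finrank_ge (p := p) hfr
  have h3 := finrank_IL_le (Psi_surj H.surj) hF hP.surj
  have h4 := hP.finrank_le hPi
  have h5 : (Finset.univ.image (rel s hh)).card ≤ ∑ j, ρ j +
      (Fintype.card (CP fun i => Group.rank (G i)) + g) := by
    refine Finset.card_image_le.trans (le_of_eq ?_)
    rw [Finset.card_univ, Fintype.card_sum, Fintype.card_sum, Fintype.card_sigma, Fintype.card_fin]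
    congr 1
    exact Finset.sum_congr rfl fun j _ => Fintype.card_fin _
  have h6 : ∑ j, ρ j ≤ ∑ j, Module.finrank (ZMod p) (IL p (ψ j).ker) :=
    Finset.sum_le_sum fun j _ => (hnf j).rank
  omega

end Pool.Agent.RG.PR
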